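import Pool.Agent.H12.SOL.M2

set_option autoImplicit false
set_option linter.unusedSectionVars false
set_option linter.unusedSimpArgs false
set_option linter.unusedVariables false

/-!
Homomorphisms from `IA_n` which kill the partial conjugations by commutators.
-/

namespace Pool.Agent.H12.LIN

open Pool.Agent.Helper460_OutF Pool.Agent.Helper460_CSP Pool.Agent.H12.SOL
open FreeGroup (of)
open scoped commutatorElement

variable {ι : Type} [DecidableEq ι]

section C2

variable {E : Type*} [Group E]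

/-- A map which is a homomorphism on the commutator subgroup and kills triple commutators. -/
structure C2 (R : FreeGroup ι → E) : Prop where
  mul : ∀ a ∈ commutator (FreeGroup ι), ∀ b ∈ commutator (FreeGroup ι), R (a * b) = R a * R b
  one' : ∀ a ∈ commutator (FreeGroup ι), ∀ v, R ⁅a, v⁆ = 1

lemma cmem (u v : FreeGroup ι) : ⁅u, v⁆ ∈ commutator (FreeGroup ι) :=
  Subgroup.commutator_mem_commutator (Subgroup.mem_top _) (Subgroup.mem_top _)

namespace C2

variable {R : FreeGroup ι → E} (h : C2 R)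

include h

lemma one : R 1 = 1 := by
  have := h.mul 1 (one_mem _) 1 (one_mem _)
  rw [mul_one] at this
  exact mul_eq_left.1 this.symm

lemma inv {a : FreeGroup ι} (ha : a ∈ commutator (FreeGroup ι)) : R a⁻¹ = (R a)⁻¹ := by
  have := h.mul a ha a⁻¹ (inv_mem ha)
  rw [mul_inv_cancel, h.one] at this
  exact (inv_eq_of_mul_eq_one_right this.symm).symm

lemma swap (u v : FreeGroup ι) : R ⁅v, u⁆ = (R ⁅u, v⁆)⁻¹ := by
  rw [← commutatorElement_inv, h.inv (cmem _ _)]

lemma one_left (v : FreeGroup ι) {a : FreeGroup ι} (ha : a ∈ commutator (FreeGroup ι)) :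
    R ⁅v, a⁆ = 1 := by
  rw [h.swap, h.one' a ha, inv_one]

lemma conj {a : FreeGroup ι} (ha : a ∈ commutator (FreeGroup ι)) (v : FreeGroup ι) :
    R (v * a * v⁻¹) = R a := by
  have e : v * a * v⁻¹ = ⁅v, a⁆ * a := by rw [commutatorElement_def]; group
  rw [e, h.mul _ (cmem _ _) _ ha, h.one_left v ha, one_mul]

lemma commute {a b : FreeGroup ι} (ha : a ∈ commutator (FreeGroup ι))
    (hb : b ∈ commutator (FreeGroup ι)) : Commute (R a) (R b) := by
  have e := h.conj hb a
  rw [h.mul _ (mul_mem ha hb) _ (inv_mem ha), h.mul _ ha _ hb, h.inv ha,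
    mul_inv_eq_iff_eq_mul] at e
  exact e

lemma mul_left (u u' v : FreeGroup ι) : R ⁅u * u', v⁆ = R ⁅u', v⁆ * R ⁅u, v⁆ := by
  have e : ⁅u * u', v⁆ = (u * ⁅u', v⁆ * u⁻¹) * ⁅u, v⁆ := by
    simp only [commutatorElement_def]; group
  rw [e, h.mul _ ((commutator (FreeGroup ι)).normal_of_characteristic.conj_mem _ (cmem _ _) _) _
    (cmem _ _), h.conj (cmem _ _)]

lemma inv_left (u v : FreeGroup ι) : R ⁅u⁻¹, v⁆ = (R ⁅u, v⁆)⁻¹ := by
  have e := h.mul_left u u⁻¹ v
  rw [mul_inv_cancel, commutatorElement_one_left, h.one] at e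
  exact (inv_eq_of_mul_eq_one_left e.symm).symm

lemma mul_right (u v v' : FreeGroup ι) : R ⁅u, v * v'⁆ = R ⁅u, v⁆ * R ⁅u, v'⁆ := by
  rw [h.swap, h.mul_left, mul_inv_rev, ← h.swap, ← h.swap]

lemma inv_right (u v : FreeGroup ι) : R ⁅u, v⁻¹⁆ = (R ⁅u, v⁆)⁻¹ := by
  rw [h.swap, h.inv_left, ← h.swap]

lemma ia {s : MulAut (FreeGroup ι)} (hs : s ∈ IA (FreeGroup ι)) {w : FreeGroup ι}
    (hw : w ∈ commutator (FreeGroup ι)) : R (s w) = R w := by
  have key : ∀ x, ∃ a ∈ commutator (FreeGroup ι), s x = x * a := by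
    intro x
    refine ⟨x⁻¹ * s x, ?_, by group⟩
    exact QuotientGroup.eq.1 (hs x).symm
  rw [commutator_def, Subgroup.commutator_def] at hw
  have hcl : ∀ x ∈ Subgroup.closure {g | ∃ g₁ ∈ (⊤ : Subgroup (FreeGroup ι)),
      ∃ g₂ ∈ (⊤ : Subgroup (FreeGroup ι)), ⁅g₁, g₂⁆ = g},
      x ∈ commutator (FreeGroup ι) ∧ s x ∈ commutator (FreeGroup ι) ∧ R (s x) = R x := by
    intro x hx
    induction hx using Subgroup.closure_induction with
    | mem x hx =>
      obtain ⟨u, -, v, -, rfl⟩ := hx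
      refine ⟨cmem _ _, by rw [map_commutatorElement]; exact cmem _ _, ?_⟩
      obtain ⟨a, ha, hua⟩ := key u
      obtain ⟨b, hb, hvb⟩ := key v
      rw [map_commutatorElement, hua, hvb, h.mul_left, h.one' a ha, one_mul, h.mul_right,
        h.one_left u hb, mul_one]
    | one => exact ⟨one_mem _, by rw [map_one]; exact one_mem _, by rw [map_one]⟩
    | mul x y _ _ hx hy =>
      refine ⟨mul_mem hx.1 hy.1, by rw [map_mul]; exact mul_mem hx.2.1 hy.2.1, ?_⟩
      rw [map_mul, h.mul _ hx.2.1 _ hy.2.1, h.mul _ hx.1 _ hy.1, hx.2.2, hy.2.2]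
    | inv x _ hx =>
      refine ⟨inv_mem hx.1, by rw [map_inv]; exact inv_mem hx.2.1, ?_⟩
      rw [map_inv, h.inv hx.2.1, h.inv hx.1, hx.2.2]
  exact (hcl w hw).2.2

end C2

end C2

/-- Images of automorphisms and of basic elements. -/
lemma cc_formula (i : ι) (u v : FreeGroup ι) :
    rr i v * cc i u * (rr i v)⁻¹ = cc i u * rr i ⁅u⁻¹, v⁆ := by
  have e1 : rr i v = lr i (1, v) := rfl
  have e2 : cc i u = lr i (u, u) := rfl
  have e3 : rr i ⁅u⁻¹, v⁆ = lr i (1, ⁅u⁻¹, v⁆) := rfl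
  rw [e1, e2, e3, ← map_inv, ← map_mul, ← map_mul, ← map_mul]
  congr 1
  ext1
  · simp
  · simp only [Prod.snd_mul, Prod.snd_inv, commutatorElement_def]
    group

lemma aut_conj (θ : MulAut (FreeGroup ι)) (w : FreeGroup ι) :
    θ * MulAut.conj w * θ⁻¹ = MulAut.conj (θ w) := by
  rw [mul_inv_eq_iff_eq_mul]
  ext x
  simp [MulAut.conj_apply]

variable {E : Type*} [Group E] [Fintype ι]

/-- A homomorphism on `IA_n` that kills the partial conjugations by basic commutators, for all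
bases. -/
structure Hm (π : MulAut (FreeGroup ι) → E) : Prop where
  pm : ∀ a ∈ IA (FreeGroup ι), ∀ b ∈ IA (FreeGroup ι), π (a * b) = π a * π b
  K : ∀ (θ : MulAut (FreeGroup ι)) (i j k : ι), i ≠ j → i ≠ k →
    π (θ * cc i ⁅of j, of k⁆ * θ⁻¹) = 1

lemma Hm.tw {π : MulAut (FreeGroup ι) → E} (h : Hm π) (σ : MulAut (FreeGroup ι)) :
    Hm (SOL.tw σ π) where
  pm a ha b hb := by
    have e : σ * (a * b) * σ⁻¹ = (σ * a * σ⁻¹) * (σ * b * σ⁻¹) := by group
    show π _ = π _ * π _
    rw [e]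
    exact h.pm _ ((IA_normal _).conj_mem _ ha σ) _ ((IA_normal _).conj_mem _ hb σ)
  K θ i j k hij hik := by
    have e : σ * (θ * cc i ⁅of j, of k⁆ * θ⁻¹) * σ⁻¹ =
      (σ * θ) * cc i ⁅of j, of k⁆ * (σ * θ)⁻¹ := by group
    show π _ = 1
    rw [e]
    exact h.K _ i j k hij hik

namespace Hm

variable {π : MulAut (FreeGroup ι) → E} (h : Hm π)

include h

lemma p1 : π 1 = 1 := by
  have := h.pm 1 (one_mem _) 1 (one_mem _)
  rw [mul_one] at this
  exact mul_eq_left.1 this.symm

lemma pinv {a : MulAut (FreeGroup ι)} (ha : a ∈ IA (FreeGroup ι)) : π a⁻¹ = (π a)⁻¹ := by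
  have := h.pm a ha a⁻¹ (inv_mem ha)
  rw [mul_inv_cancel, h.p1] at this
  exact (inv_eq_of_mul_eq_one_right this.symm).symm

lemma pconj {s a : MulAut (FreeGroup ι)} (hs : s ∈ IA (FreeGroup ι)) (ha : a ∈ IA (FreeGroup ι)) :
    π (s * a * s⁻¹) = π s * π a * (π s)⁻¹ := by
  rw [h.pm _ (mul_mem hs ha) _ (inv_mem hs), h.pm _ hs _ ha, h.pinv hs]

lemma pcomm {s a : MulAut (FreeGroup ι)} (hs : s ∈ IA (FreeGroup ι)) (ha : a ∈ IA (FreeGroup ι))
    (hc : π (s * a * s⁻¹) = π a) : Commute (π s) (π a) := by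
  rw [h.pconj hs ha, mul_inv_eq_iff_eq_mul] at hc
  exact hc

/-- The restriction to partial conjugations. -/
lemma ccm (i : ι) (u v : FreeGroup ι) : π (cc i (u * v)) = π (cc i u) * π (cc i v) := by
  rw [map_mul, h.pm _ (cc_mem_IA _ _) _ (cc_mem_IA _ _)]

lemma cc1_gen (i j k : ι) : π (cc i ⁅of j, of k⁆) = 1 := by
  by_cases hj : i = j
  · subst hj
    rw [map_commutatorElement, cc_of_self, commutatorElement_one_left, h.p1]
  · by_cases hk : i = k
    · subst hk
      rw [map_commutatorElement, cc_of_self, commutatorElement_one_right, h.p1]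
    · have := h.K 1 i j k hj hk
      simpa using this

lemma cc_comm (i : ι) (u v : FreeGroup ι) : Commute (π (cc i u)) (π (cc i v)) := by
  let f : FreeGroup ι →* E :=
    { toFun := fun w => π (cc i w)
      map_one' := by rw [map_one, h.p1]
      map_mul' := fun a b => h.ccm i a b }
  refine commute_of_gen f (fun j k => ?_) u v
  rw [← commutatorElement_eq_one_iff_commute, ← map_commutatorElement]
  exact h.cc1_gen i j k

lemma cc1 (i : ι) {w : FreeGroup ι} (hw : w ∈ commutator (FreeGroup ι)) : π (cc i w) = 1 := by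
  let f : FreeGroup ι →* E :=
    { toFun := fun w => π (cc i w)
      map_one' := by rw [map_one, h.p1]
      map_mul' := fun a b => h.ccm i a b }
  have : commutator (FreeGroup ι) ≤ f.ker := by
    rw [commutator_def, Subgroup.commutator_le]
    intro u _ v _
    rw [MonoidHom.mem_ker, map_commutatorElement, commutatorElement_eq_one_iff_commute]
    exact h.cc_comm i u v
  exact this hw

lemma rr1_gen (i j k : ι) (v : FreeGroup ι) : π (rr i ⁅⁅of j, of k⁆⁻¹, v⁆) = 1 := by
  by_cases hj : i = j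
  · subst hj
    have e : rr i ⁅⁅of i, of k⁆⁻¹, v⁆ = 1 := by
      rw [map_commutatorElement, map_inv, map_commutatorElement, rr_of_self,
        commutatorElement_one_left, inv_one, commutatorElement_one_left]
    rw [e, h.p1]
  · by_cases hk : i = k
    · subst hk
      have e : rr i ⁅⁅of j, of i⁆⁻¹, v⁆ = 1 := by
        rw [map_commutatorElement, map_inv, map_commutatorElement, rr_of_self,
          commutatorElement_one_right, inv_one, commutatorElement_one_left]
      rw [e, h.p1]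
    · have h1 := h.K (rr i v) i j k hj hk
      rw [cc_formula, h.pm _ (cc_mem_IA _ _) _ (rr_comm_mem_IA _ _ _), h.cc1_gen, one_mul] at h1
      exact h1

lemma rr_mul (i : ι) {a b : FreeGroup ι} (ha : a ∈ commutator (FreeGroup ι))
    (hb : b ∈ commutator (FreeGroup ι)) : π (rr i (a * b)) = π (rr i a) * π (rr i b) := by
  rw [map_mul, h.pm _ (rr_mem_IA ha) _ (rr_mem_IA hb)]

lemma rr_conj' (i : ι) {a : FreeGroup ι} (ha : a ∈ commutator (FreeGroup ι)) (v : FreeGroup ι) :
    π (rr i (v * a * v⁻¹)) = π (cc i v) * π (rr i a) * (π (cc i v))⁻¹ := by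
  rw [rr_conj_cc, h.pconj (cc_mem_IA _ _) (rr_mem_IA ha)]

/-- The kernel of the map on right transvections. -/
def NN (i : ι) : Subgroup (FreeGroup ι) where
  carrier := {w | w ∈ commutator (FreeGroup ι) ∧ π (rr i w) = 1}
  one_mem' := ⟨one_mem _, by rw [map_one, h.p1]⟩
  mul_mem' := fun {a b} ha hb => ⟨mul_mem ha.1 hb.1, by
    rw [h.rr_mul i ha.1 hb.1, ha.2, hb.2, mul_one]⟩
  inv_mem' := fun {a} ha => ⟨inv_mem ha.1, by
    rw [map_inv, h.pinv (rr_mem_IA ha.1), ha.2, inv_one]⟩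

lemma NN_normal (i : ι) : (h.NN i).Normal := by
  refine ⟨fun w hw g => ⟨(commutator (FreeGroup ι)).normal_of_characteristic.conj_mem _ hw.1 _, ?_⟩⟩
  rw [h.rr_conj' i hw.1, hw.2, mul_one, mul_inv_cancel]

lemma rr1 (i : ι) {w : FreeGroup ι} (hw : w ∈ commutator (FreeGroup ι)) (v : FreeGroup ι) :
    ⁅w, v⁆ ∈ h.NN i := by
  have hn := h.NN_normal i
  let Z : Subgroup (FreeGroup ι) :=
    (Subgroup.center (FreeGroup ι ⧸ h.NN i)).comap (QuotientGroup.mk' (h.NN i))
  have hZ : ∀ w, w ∈ Z ↔ ∀ v, ⁅w, v⁆ ∈ h.NN i := by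
    intro w
    show QuotientGroup.mk' (h.NN i) w ∈ Subgroup.center _ ↔ _
    rw [Subgroup.mem_center_iff]
    constructor
    · intro hc v
      rw [← QuotientGroup.eq_one_iff]
      have : QuotientGroup.mk' (h.NN i) ⁅w, v⁆ = 1 := by
        rw [map_commutatorElement, commutatorElement_eq_one_iff_mul_comm]
        exact (hc _).symm
      exact this
    · intro hc g
      obtain ⟨v, rfl⟩ := QuotientGroup.mk'_surjective _ g
      have : QuotientGroup.mk' (h.NN i) ⁅w, v⁆ = 1 := (QuotientGroup.eq_one_iff _).2 (hc v)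
      rw [map_commutatorElement, commutatorElement_eq_one_iff_mul_comm] at this
      exact this.symm
  have hZn : Z.Normal := inferInstance
  have hle : commutator (FreeGroup ι) ≤ Z := by
    rw [commutator_def, Subgroup.commutator_le]
    intro u _ v _
    refine comm_mem_of Z (fun j k => ?_) u v
    rw [← inv_mem_iff, hZ]
    intro v
    exact ⟨cmem _ _, h.rr1_gen i j k v⟩
  exact (hZ w).1 (hle hw) v

lemma c2 (i : ι) : C2 (fun w => π (rr i w)) where
  mul a ha b hb := h.rr_mul i ha hb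
  one' a ha v := (h.rr1 i ha v).2

/-- `M_l` commutes with the elements of `IA_n` which preserve the factor. -/
lemma C2' {l : ι} {s : MulAut (FreeGroup ι)} (hs : s ∈ IA (FreeGroup ι)) (hp : Pres l s)
    (w : FreeGroup ι) : Commute (π s) (π (cc l w)) := by
  refine h.pcomm hs (cc_mem_IA _ _) ?_
  rw [hp.cc]
  have e : s w = w * (w⁻¹ * s w) := by group
  have hm : w⁻¹ * s w ∈ commutator (FreeGroup ι) := QuotientGroup.eq.1 (hs w).symm
  rw [e, h.ccm, h.cc1 l hm, mul_one]

lemma C3' {l : ι} {s : MulAut (FreeGroup ι)} (hs : s ∈ IA (FreeGroup ι)) (hp : Pres l s)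
    {w : FreeGroup ι} (hw : w ∈ commutator (FreeGroup ι)) : Commute (π s) (π (rr l w)) := by
  refine h.pcomm hs (rr_mem_IA hw) ?_
  rw [hp.rr]
  exact (h.c2 l).ia hs hw

lemma C4' (l : ι) (v : FreeGroup ι) {w : FreeGroup ι} (hw : w ∈ commutator (FreeGroup ι)) :
    Commute (π (cc l v)) (π (rr l w)) := by
  refine h.pcomm (cc_mem_IA _ _) (rr_mem_IA hw) ?_
  rw [← rr_conj_cc]
  exact (h.c2 l).conj hw v

lemma C5' (l : ι) {w w' : FreeGroup ι} (hw : w ∈ commutator (FreeGroup ι))
    (hw' : w' ∈ commutator (FreeGroup ι)) : Commute (π (rr l w)) (π (rr l w')) :=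
  (h.c2 l).commute hw hw'

end Hm

end Pool.Agent.H12.LIN
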