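import Pool.Agent.H12.LIN.N1

set_option autoImplicit false
set_option linter.unusedSectionVars false
set_option linter.unusedSimpArgs false
set_option linter.unusedVariables false

/-!
The Magnus generators commute.
-/

namespace Pool.Agent.H12.LIN

open Pool.Agent.Helper460_OutF Pool.Agent.Helper460_CSP Pool.Agent.H12.SOL
open FreeGroup (of)
open scoped commutatorElement

variable {ι : Type} [DecidableEq ι] [Fintype ι] {E : Type*} [Group E]

lemma comm_step {A W B B' : E} (h1 : Commute (A * W) (B * B')) (h2 : Commute A B)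
    (h3 : Commute A B') (h4 : Commute W B') : Commute W B := by
  have h5 : Commute W (B * B') := by
    have e : W = A⁻¹ * (A * W) := by group
    rw [e]
    exact (h2.mul_right h3).inv_left.mul_left h1
  have e : B = (B * B') * B'⁻¹ := by group
  rw [e]
  exact h5.mul_right h4.inv_right

/-- `π` satisfies `Hm` and the partial conjugations of `x_i` by `x_p` and of `x_p` by `x_i`
commute, for all bases. -/
structure Full (π : MulAut (FreeGroup ι) → E) : Prop extends Hm π where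
  I3 : ∀ (θ : MulAut (FreeGroup ι)) (i p : ι), i ≠ p →
    Commute (π (θ * cc i (of p) * θ⁻¹)) (π (θ * cc p (of i) * θ⁻¹))

lemma Full.tw {π : MulAut (FreeGroup ι) → E} (h : Full π) (σ : MulAut (FreeGroup ι)) :
    Full (SOL.tw σ π) where
  toHm := h.toHm.tw σ
  I3 θ i p hip := by
    have e : ∀ x, σ * (θ * x * θ⁻¹) * σ⁻¹ = (σ * θ) * x * (σ * θ)⁻¹ := by intro x; group
    show Commute (π _) (π _)
    rw [e, e]
    exact h.I3 _ i p hip

lemma kil_cm {i a b : ι} (ha : a ≠ i) (hb : b ≠ i) : kil i ⁅of a, of b⁆ = ⁅of a, of b⁆ :=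
  kil_comm_of ha hb

namespace Full

variable {π : MulAut (FreeGroup ι) → E} (h : Full π)

include h

lemma i3 {i p : ι} (hip : i ≠ p) : Commute (π (cc i (of p))) (π (cc p (of i))) := by
  have := h.I3 1 i p hip
  simpa using this

/-- Type (a). -/
lemma ta {i p m : ι} (hip : i ≠ p) (him : i ≠ m) (hpm : p ≠ m) :
    Commute (π (rr i ⁅of m, of p⁆)) (π (cc p (of i))) := by
  have h1 := h.I3 (rr i (of m)) i p hip
  have hP : Pres p (rr i (of m)) := pres_rr hip.symm (kil_ne hpm.symm)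
  rw [cc_formula, hP.cc, rr_self, kil_ne him.symm, h.pm _ (cc_mem_IA _ _) _ (rr_comm_mem_IA _ _ _),
    h.toHm.ccm] at h1
  have hQ : Pres i (cc p (of m)) := pres_cc hip (kil_ne him.symm)
  have h2 := comm_step h1 (h.i3 hip)
    (h.toHm.C2' (cc_mem_IA _ _) hQ (of p)).symm
    (h.toHm.C3' (cc_mem_IA _ _) hQ (cmem _ _)).symm
  have e : π (rr i ⁅of m, of p⁆) = π (rr i ⁅(of p)⁻¹, of m⁆) := by
    have e1 : π (rr i ⁅(of p)⁻¹, of m⁆) = (π (rr i ⁅of p, of m⁆))⁻¹ :=
      (h.toHm.c2 i).inv_left (of p) (of m)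
    have e2 : π (rr i ⁅of m, of p⁆) = (π (rr i ⁅of p, of m⁆))⁻¹ :=
      (h.toHm.c2 i).swap (of p) (of m)
    rw [e1, e2]
  rw [e]
  exact h2

/-- Type (b). -/
lemma tb {i p k m : ι} (hip : i ≠ p) (hik : i ≠ k) (hpk : p ≠ k) (him : i ≠ m) (hpm : p ≠ m) :
    Commute (π (rr p ⁅of k, of i⁆)) (π (rr i ⁅of m, of p⁆)) := by
  have h1 := ((h.tw (rr p (of k))).ta hip him hpm).symm
  have hP : Pres i (rr p (of k)) := pres_rr hip (kil_ne hik.symm)
  unfold SOL.tw at h1
  have e9 : (rr p (of k)) ⁅of m, of p⁆ = ⁅of m, of p * of k⁆ := by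
    rw [map_commutatorElement, rr_ne hpm.symm, rr_self, kil_ne hpk.symm]
  rw [cc_formula, hP.rr, e9, h.pm _ (cc_mem_IA _ _) _ (rr_comm_mem_IA _ _ _)] at h1
  have e0 : π (rr i ⁅of m, of p * of k⁆) = π (rr i ⁅of m, of p⁆) * π (rr i ⁅of m, of k⁆) :=
    (h.toHm.c2 i).mul_right (of m) (of p) (of k)
  rw [e0] at h1
  have hQ : Pres p (rr i ⁅of m, of k⁆) := pres_rr hip.symm (kil_cm hpm.symm hpk.symm)
  have h2 := comm_step h1 (h.ta hip him hpm).symm
    (h.toHm.C2' (rr_comm_mem_IA _ _ _) hQ (of i)).symm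
    (h.toHm.C3' (rr_comm_mem_IA _ _ _) hQ (cmem _ _)).symm
  have e : π (rr p ⁅of k, of i⁆) = π (rr p ⁅(of i)⁻¹, of k⁆) := by
    have e1 : π (rr p ⁅(of i)⁻¹, of k⁆) = (π (rr p ⁅of i, of k⁆))⁻¹ :=
      (h.toHm.c2 p).inv_left (of i) (of k)
    have e2 : π (rr p ⁅of k, of i⁆) = (π (rr p ⁅of i, of k⁆))⁻¹ :=
      (h.toHm.c2 p).swap (of i) (of k)
    rw [e1, e2]
  rw [e]
  exact h2

lemma one_comm (x : MulAut (FreeGroup ι)) : Commute (π 1) (π x) := by
  rw [h.toHm.p1]; exact Commute.one_left _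

lemma rr_triv_l {i k : ι} : rr i ⁅(of i : FreeGroup ι), of k⁆ = 1 := by
  rw [map_commutatorElement, rr_of_self, commutatorElement_one_left]

lemma rr_triv_r {i k : ι} : rr i ⁅(of k : FreeGroup ι), of i⁆ = 1 := by
  rw [map_commutatorElement, rr_of_self, commutatorElement_one_right]

lemma rr_triv_d {i k : ι} : rr i ⁅(of k : FreeGroup ι), of k⁆ = 1 := by
  rw [commutatorElement_self, map_one]

lemma rr_swap (i j k : ι) : π (rr i ⁅of j, of k⁆) = (π (rr i ⁅of k, of j⁆))⁻¹ := by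
  have e2 := (h.toHm.c2 i).swap (of k) (of j)
  exact e2

/-- cc against rr. -/
lemma cr (i j p q r : ι) : Commute (π (cc i (of j))) (π (rr p ⁅of q, of r⁆)) := by
  by_cases hip : i = p
  · subst hip
    exact h.toHm.C4' _ _ (cmem _ _)
  by_cases hij : i = j
  · subst hij
    rw [cc_of_self]; exact h.one_comm _
  by_cases hjp : j = p
  · subst hjp
    by_cases hqr : q = r
    · subst hqr; rw [h.rr_triv_d]; exact (h.one_comm _).symm
    by_cases hqp : j = q
    · subst hqp; rw [h.rr_triv_l]; exact (h.one_comm _).symm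
    by_cases hrp : j = r
    · subst hrp; rw [h.rr_triv_r]; exact (h.one_comm _).symm
    by_cases hiq : i = q
    · subst hiq
      rw [h.rr_swap]
      exact (h.ta (i := j) (p := i) (m := r) (Ne.symm hij) hrp hqr).symm.inv_right
    · by_cases hir : i = r
      · subst hir
        exact (h.ta (i := j) (p := i) (m := q) (Ne.symm hij) hqp (Ne.symm hqr)).symm
      · exact (h.toHm.C2' (rr_comm_mem_IA _ _ _)
          (pres_rr hij (kil_cm (Ne.symm hiq) (Ne.symm hir))) _).symm
  · exact h.toHm.C3' (cc_mem_IA _ _) (pres_cc (Ne.symm hip) (kil_ne hjp)) (cmem _ _)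

lemma cc' (i j p q : ι) : Commute (π (cc i (of j))) (π (cc p (of q))) := by
  by_cases hip : i = p
  · subst hip
    exact h.toHm.cc_comm _ _ _
  by_cases hij : i = j
  · subst hij
    rw [cc_of_self]; exact h.one_comm _
  by_cases hjp : j = p
  · subst hjp
    by_cases hqi : q = i
    · subst hqi
      exact h.i3 hij
    · exact (h.toHm.C2' (cc_mem_IA _ _) (pres_cc hip (kil_ne hqi)) _).symm
  · exact h.toHm.C2' (cc_mem_IA _ _) (pres_cc (Ne.symm hip) (kil_ne hjp)) _

lemma rr' (i j k p q r : ι) : Commute (π (rr i ⁅of j, of k⁆)) (π (rr p ⁅of q, of r⁆)) := by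
  by_cases hip : i = p
  · subst hip
    exact h.toHm.C5' _ (cmem _ _) (cmem _ _)
  by_cases hjk : j = k
  · subst hjk; rw [h.rr_triv_d]; exact h.one_comm _
  by_cases hji : i = j
  · subst hji; rw [h.rr_triv_l]; exact h.one_comm _
  by_cases hki : i = k
  · subst hki; rw [h.rr_triv_r]; exact h.one_comm _
  by_cases hqr : q = r
  · subst hqr; rw [h.rr_triv_d]; exact (h.one_comm _).symm
  by_cases hqp : p = q
  · subst hqp; rw [h.rr_triv_l]; exact (h.one_comm _).symm
  by_cases hrp : p = r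
  · subst hrp; rw [h.rr_triv_r]; exact (h.one_comm _).symm
  have key : ∀ j' : ι, i ≠ j' → ∀ q', p ≠ q' →
      p ≠ j' → i ≠ q' → Commute (π (rr i ⁅of j', of p⁆)) (π (rr p ⁅of q', of i⁆)) :=
    fun j' h1 q' h2 h3 h4 => (h.tb hip h4 h2 h1 h3).symm
  have side : (p ≠ j ∧ p ≠ k) → Commute (π (rr i ⁅of j, of k⁆)) (π (rr p ⁅of q, of r⁆)) :=
    fun hh => h.toHm.C3' (rr_comm_mem_IA _ _ _)
      (pres_rr (Ne.symm hip) (kil_cm hh.1.symm hh.2.symm)) (cmem _ _)
  have side2 : (i ≠ q ∧ i ≠ r) → Commute (π (rr i ⁅of j, of k⁆)) (π (rr p ⁅of q, of r⁆)) :=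
    fun hh => (h.toHm.C3' (rr_comm_mem_IA _ _ _)
      (pres_rr hip (kil_cm hh.1.symm hh.2.symm)) (cmem _ _)).symm
  by_cases hpj : p = j
  · subst hpj
    rw [h.rr_swap i]
    by_cases hiq : i = q
    · subst hiq
      rw [h.rr_swap p]
      exact ((key k hki r hrp hjk hqr).inv_left).inv_right
    · by_cases hir : i = r
      · subst hir
        exact (key k hki q hqp hjk hiq).inv_left
      · have := side2 ⟨hiq, hir⟩
        rw [h.rr_swap i] at this
        exact this
  · by_cases hpk : p = k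
    · subst hpk
      by_cases hiq : i = q
      · subst hiq
        rw [h.rr_swap p]
        exact (key j hji r hrp hpj hqr).inv_right
      · by_cases hir : i = r
        · subst hir
          exact key j hji q hqp hpj hiq
        · exact side2 ⟨hiq, hir⟩
    · exact side ⟨hpj, hpk⟩

/-- The image is abelian. -/
theorem abelian : ∀ a ∈ IA (FreeGroup ι), ∀ b ∈ IA (FreeGroup ι), Commute (π a) (π b) := by
  have hgen : ∀ g ∈ GS ι, ∀ g' ∈ GS ι, Commute (π g) (π g') := by
    rintro g (⟨i, j, rfl⟩ | ⟨i, j, k, rfl⟩) g' (⟨p, q, rfl⟩ | ⟨p, q, r, rfl⟩)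
    · exact h.cc' _ _ _ _
    · exact h.cr _ _ _ _ _
    · exact (h.cr _ _ _ _ _).symm
    · exact h.rr' _ _ _ _ _ _
  have hle : ∀ x ∈ HH ι, x ∈ IA (FreeGroup ι) := fun x hx => HH_le_IA hx
  rw [IA_eq]
  have step1 : ∀ g ∈ GS ι, ∀ b ∈ HH ι, Commute (π g) (π b) := by
    intro g hg b hb
    unfold HH at hb
    induction hb using Subgroup.closure_induction with
    | mem x hx => exact hgen g hg x hx
    | one => exact (h.one_comm _).symm
    | mul x y hx hy h1 h2 =>
      rw [h.pm x (hle x hx) y (hle y hy)]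
      exact h1.mul_right h2
    | inv x hx h1 =>
      rw [h.toHm.pinv (hle x hx)]
      exact h1.inv_right
  intro a ha b hb
  unfold HH at ha
  induction ha using Subgroup.closure_induction with
  | mem x hx => exact step1 x hx b hb
  | one => exact h.one_comm _
  | mul x y hx hy h1 h2 =>
    rw [h.pm x (hle x hx) y (hle y hy)]
    exact h1.mul_left h2
  | inv x hx h1 =>
    rw [h.toHm.pinv (hle x hx)]
    exact h1.inv_left

end Full

end Pool.Agent.H12.LIN
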