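import Pool.Agent.H12.LIN.N2

set_option autoImplicit false
set_option linter.unusedSectionVars false
set_option linter.unusedSimpArgs false
set_option linter.unusedVariables false

/-!
Images of class two.
-/

namespace Pool.Agent.H12.LIN

open Pool.Agent.Helper460_OutF Pool.Agent.Helper460_CSP Pool.Agent.H12.SOL
open FreeGroup (of)
open scoped commutatorElement

variable {ι : Type} [DecidableEq ι] [Fintype ι] {E : Type*} [Group E]

section cl2

/-- The commutator with `P`, with values in the center. -/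
def bh (hc : ∀ x y : E, ⁅x, y⁆ ∈ Subgroup.center E) (P : E) : E →* Subgroup.center E where
  toFun x := ⟨⁅P, x⁆, hc P x⟩
  map_one' := Subtype.ext (commutatorElement_one_right P)
  map_mul' x y := by
    apply Subtype.ext
    show ⁅P, x * y⁆ = ⁅P, x⁆ * ⁅P, y⁆
    have e : ⁅P, x * y⁆ = ⁅P, x⁆ * (x * ⁅P, y⁆ * x⁻¹) := by
      simp only [commutatorElement_def]; group
    rw [e, (Subgroup.mem_center_iff.1 (hc P y) x), mul_inv_cancel_right]

lemma bh_eq_one (hc : ∀ x y : E, ⁅x, y⁆ ∈ Subgroup.center E) {P x : E} :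
    bh hc P x = 1 ↔ Commute P x := by
  rw [← commutatorElement_eq_one_iff_commute]
  exact Subtype.ext_iff

end cl2

namespace Hm

variable {π : MulAut (FreeGroup ι) → E} (h : Hm π)

include h

lemma pll (i : ι) {w : FreeGroup ι} (hw : w ∈ commutator (FreeGroup ι)) :
    π (ll i w) = (π (rr i w))⁻¹ := by
  have e : ll i w = cc i w * (rr i w)⁻¹ := by rw [cc_eq]; group
  rw [e, h.pm _ (cc_mem_IA _ _) _ (inv_mem (rr_mem_IA hw)), h.cc1 i hw, one_mul,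
    h.pinv (rr_mem_IA hw)]

lemma S2 (hc : ∀ x y : E, ⁅x, y⁆ ∈ Subgroup.center E) (P : E) {i p k : ι} (hip : i ≠ p)
    (hki : k ≠ i) (hkp : k ≠ p) :
    bh hc P (π (rr p (of i) * rr i ⁅of p, of k⁆ * (rr p (of i))⁻¹)) =
      bh hc P (π (cc i (of k))) * bh hc P (π (rr p ⁅of k, of i⁆)) *
        bh hc P (π (rr i ⁅of p, of k⁆)) * (bh hc P (π (cc p (of k))))⁻¹ := by
  have e := congrArg π (idM hip hki hkp)
  have m1 : rr p (of i) * rr i ⁅of p, of k⁆ * (rr p (of i))⁻¹ ∈ IA (FreeGroup ι) :=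
    (IA_normal _).conj_mem _ (rr_comm_mem_IA _ _ _) _
  have m2 := cc_mem_IA p (of i : FreeGroup ι)
  have m3 := cc_mem_IA i (of p : FreeGroup ι)
  have m4 : ll i ⁅(of p)⁻¹, (of k)⁻¹⁆ ∈ IA (FreeGroup ι) := ll_mem_IA (cmem _ _)
  have m5 := cc_mem_IA p (of k : FreeGroup ι)
  have m6 := cc_mem_IA i (of k : FreeGroup ι)
  have m7 := rr_comm_mem_IA p (of k : FreeGroup ι) (of i)
  rw [h.pm _ m1 _ (mul_mem (mul_mem (mul_mem m2 m3) m4) m5),
    h.pm _ (mul_mem (mul_mem m2 m3) m4) _ m5, h.pm _ (mul_mem m2 m3) _ m4, h.pm _ m2 _ m3,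
    h.pm _ (mul_mem (mul_mem m2 m3) m6) _ m7, h.pm _ (mul_mem m2 m3) _ m6, h.pm _ m2 _ m3,
    h.pll i (cmem _ _)] at e
  have e1 : π (rr i ⁅(of p)⁻¹, (of k)⁻¹⁆) = π (rr i ⁅of p, of k⁆) := by
    have a1 : π (rr i ⁅(of p)⁻¹, (of k)⁻¹⁆) = (π (rr i ⁅of p, (of k)⁻¹⁆))⁻¹ :=
      (h.c2 i).inv_left _ _
    have a2 : π (rr i ⁅of p, (of k)⁻¹⁆) = (π (rr i ⁅of p, of k⁆))⁻¹ :=
      (h.c2 i).inv_right _ _
    rw [a1, a2, inv_inv]
  rw [e1] at e
  generalize π (rr p (of i) * rr i ⁅of p, of k⁆ * (rr p (of i))⁻¹) = A at *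
  generalize π (cc p (of i)) = B at *
  generalize π (cc i (of p)) = C at *
  generalize π (rr i ⁅of p, of k⁆) = D at *
  generalize π (cc p (of k)) = F at *
  generalize π (cc i (of k)) = G at *
  generalize π (rr p ⁅of k, of i⁆) = R at *
  have e2 := congrArg (bh hc P) e
  simp only [map_mul, map_inv] at e2
  generalize bh hc P A = a at *
  generalize bh hc P B = b at *
  generalize bh hc P C = c at *
  generalize bh hc P D = d at *
  generalize bh hc P F = f at *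
  generalize bh hc P G = g at *
  generalize bh hc P R = r at *
  have e3 : a = (b * c * g * r) * (b * c * d⁻¹ * f)⁻¹ := eq_mul_inv_of_mul_eq e2
  have cm : ∀ x y : Subgroup.center E, x * y = y * x := fun x y =>
    Subtype.ext (Subgroup.mem_center_iff.1 y.2 x)
  calc a = (b * c) * (g * r * (f⁻¹ * d)) * (b * c)⁻¹ := by rw [e3]; group
    _ = g * r * (f⁻¹ * d) := by rw [cm (b * c), mul_inv_cancel_right]
    _ = g * r * (d * f⁻¹) := by rw [cm f⁻¹ d]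
    _ = g * r * d * f⁻¹ := by rw [mul_assoc (g * r)]

/-- Type (b) with distinct indices. -/
lemma b2 (hc : ∀ x y : E, ⁅x, y⁆ ∈ Subgroup.center E) {i p k m : ι} (hip : i ≠ p) (hik : i ≠ k)
    (hpk : p ≠ k) (him : i ≠ m) (hpm : p ≠ m) (hkm : k ≠ m) :
    Commute (π (rr p ⁅(of m)⁻¹, of i⁆)) (π (rr i ⁅of p, of k⁆)) := by
  have hQ : Pres i (cc p (of m)) := pres_cc hip (kil_ne him.symm)
  have h1 := (h.tw (rr p (of i))).C3' (cc_mem_IA p (of m)) hQ (cmem (of p) (of k))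
  unfold SOL.tw at h1
  rw [cc_formula, h.pm _ (cc_mem_IA _ _) _ (rr_comm_mem_IA _ _ _)] at h1
  have hS := fun P => h.S2 hc P hip hik.symm hpk.symm
  have hU : Commute (π (cc p (of m))) (π (rr p (of i) * rr i ⁅of p, of k⁆ * (rr p (of i))⁻¹)) := by
    rw [← bh_eq_one hc, hS, (bh_eq_one hc).2 (h.C2' (cc_mem_IA _ _) hQ _),
      (bh_eq_one hc).2 (h.C4' p _ (cmem _ _)), (bh_eq_one hc).2 (h.C3' (cc_mem_IA _ _) hQ (cmem _ _)),
      (bh_eq_one hc).2 (h.cc_comm p _ _), inv_one]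
    simp
  have hR : Commute (π (rr p ⁅(of m)⁻¹, of i⁆))
      (π (rr p (of i) * rr i ⁅of p, of k⁆ * (rr p (of i))⁻¹)) := by
    have e : π (rr p ⁅(of m)⁻¹, of i⁆) = (π (cc p (of m)))⁻¹ *
      (π (cc p (of m)) * π (rr p ⁅(of m)⁻¹, of i⁆)) := by group
    rw [e]
    exact hU.inv_left.mul_left h1
  have hQ2 : Pres p (cc i (of k)) := pres_cc hip.symm (kil_ne hpk.symm)
  rw [← bh_eq_one hc, hS, (bh_eq_one hc).2 (h.C3' (cc_mem_IA _ _) hQ2 (cmem _ _)).symm,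
    (bh_eq_one hc).2 (h.C5' p (cmem _ _) (cmem _ _)),
    (bh_eq_one hc).2 (h.C4' p _ (cmem _ _)).symm, inv_one, one_mul, one_mul, mul_one,
    bh_eq_one] at hR
  exact hR

lemma a2 (hc : ∀ x y : E, ⁅x, y⁆ ∈ Subgroup.center E) {i p k m : ι} (hip : i ≠ p) (hik : i ≠ k)
    (hpk : p ≠ k) (him : i ≠ m) (hpm : p ≠ m) (hkm : k ≠ m) :
    Commute (π (rr i ⁅of p, of k⁆)) (π (cc p (of i))) := by
  have h1 := (h.tw (rr m (of p))).b2 hc hip hik hpk him hpm hkm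
  have e1 : SOL.tw (rr m (of p)) π (rr p ⁅(of m)⁻¹, of i⁆) =
      (SOL.tw (rr m (of p)) π (rr p ⁅of m, of i⁆))⁻¹ :=
    ((h.tw (rr m (of p))).c2 p).inv_left _ _
  rw [e1] at h1
  have h2 := h1.inv_left
  rw [inv_inv] at h2
  unfold SOL.tw at h2
  have hP : Pres i (rr m (of p)) := pres_rr him (kil_ne hip.symm)
  have e9 : (rr m (of p)) ⁅of p, of k⁆ = ⁅of p, of k⁆ := by
    rw [map_commutatorElement, rr_ne hpm, rr_ne hkm]
  rw [hP.rr, e9] at h2
  have h3 := h2.symm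
  rw [← bh_eq_one hc, h.S2 hc _ hpm hip him] at h3
  have hQ : Pres m (rr i ⁅of p, of k⁆) := pres_rr him.symm (kil_cm hpm hkm)
  have e2 : π (rr p ⁅of m, of i⁆) = (π (rr p ⁅(of m)⁻¹, of i⁆))⁻¹ := by
    have : π (rr p ⁅(of m)⁻¹, of i⁆) = (π (rr p ⁅of m, of i⁆))⁻¹ := (h.c2 p).inv_left _ _
    rw [this, inv_inv]
  rw [(bh_eq_one hc).2 (h.C3' (rr_comm_mem_IA _ _ _) hQ (cmem _ _)), e2,
    (bh_eq_one hc).2 (h.b2 hc hip hik hpk him hpm hkm).symm.inv_right,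
    (bh_eq_one hc).2 (h.C2' (rr_comm_mem_IA _ _ _) hQ _), inv_one, mul_one, mul_one, mul_one,
    bh_eq_one] at h3
  exact h3

lemma i3 (hc : ∀ x y : E, ⁅x, y⁆ ∈ Subgroup.center E) (h4 : 4 ≤ Fintype.card ι) {i p : ι}
    (hip : i ≠ p) : Commute (π (cc i (of p))) (π (cc p (of i))) := by
  obtain ⟨k, hki, hkp, -⟩ := exists_ne3 h4 i p p
  obtain ⟨m, hmi, hmp, hmk⟩ := exists_ne3 h4 i p k
  have h1 := (h.tw (rr k (of i))).a2 hc hip hki.symm hkp.symm hmi.symm hmp.symm hmk.symm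
  have e1 : SOL.tw (rr k (of i)) π (rr i ⁅of p, of k⁆) =
      (SOL.tw (rr k (of i)) π (rr i ⁅of k, of p⁆))⁻¹ :=
    ((h.tw (rr k (of i))).c2 i).swap _ _
  rw [e1] at h1
  have h2 := h1.inv_left
  rw [inv_inv] at h2
  unfold SOL.tw at h2
  have hP : Pres p (rr k (of i)) := pres_rr hkp.symm (kil_ne hip)
  rw [hP.cc, rr_ne hki.symm] at h2
  have h3 := h2.symm
  rw [← bh_eq_one hc, h.S2 hc _ hki.symm hip.symm hkp.symm] at h3
  have hQ : Pres k (cc p (of i)) := pres_cc hkp (kil_ne hki.symm)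
  have e2 : π (rr i ⁅of k, of p⁆) = (π (rr i ⁅of p, of k⁆))⁻¹ := (h.c2 i).swap _ _
  rw [(bh_eq_one hc).2 (h.C3' (cc_mem_IA _ _) hQ (cmem _ _)), e2,
    (bh_eq_one hc).2 (h.a2 hc hip hki.symm hkp.symm hmi.symm hmp.symm hmk.symm).symm.inv_right,
    (bh_eq_one hc).2 (h.C2' (cc_mem_IA _ _) hQ _), inv_one, mul_one, mul_one, mul_one,
    bh_eq_one] at h3
  exact h3.symm

theorem full2 (hc : ∀ x y : E, ⁅x, y⁆ ∈ Subgroup.center E) (h4 : 4 ≤ Fintype.card ι) : Full π where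
  toHm := h
  I3 θ i p hip := (h.tw θ).i3 hc h4 hip

end Hm

end Pool.Agent.H12.LIN
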