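import Pool.Agent.H12.LIN.N3

set_option autoImplicit false
set_option linter.unusedSectionVars false
set_option linter.unusedSimpArgs false
set_option linter.unusedVariables false

/-!
Homomorphisms from `IA_n` that kill partial conjugations by commutators have abelian image.
-/

namespace Pool.Agent.H12.LIN

open Pool.Agent.Helper460_OutF Pool.Agent.Helper460_CSP Pool.Agent.H12.SOL
open FreeGroup (of)
open scoped commutatorElement

variable {ι : Type} [DecidableEq ι] [Fintype ι] {E : Type*} [Group E]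

namespace Hm

variable {π : MulAut (FreeGroup ι) → E} (h : Hm π)

include h

/-- The restriction to inner automorphisms. -/
def rho : FreeGroup ι →* E where
  toFun w := π (MulAut.conj w)
  map_one' := by rw [map_one, h.p1]
  map_mul' a b := by rw [map_mul, h.pm _ (conj_mem_IA _) _ (conj_mem_IA _)]

lemma rho_conj {s : MulAut (FreeGroup ι)} (hs : s ∈ IA (FreeGroup ι)) (w : FreeGroup ι) :
    π s * h.rho w * (π s)⁻¹ = h.rho (s w) := by
  show π s * π (MulAut.conj w) * (π s)⁻¹ = π (MulAut.conj (s w))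
  rw [← aut_conj, h.pconj hs (conj_mem_IA _)]

lemma D1 {m j k : ι} (hmj : m ≠ j) (hmk : m ≠ k) :
    Commute (h.rho (of m)) (h.rho ⁅of j, of k⁆) := by
  have e := h.rho_conj (cc_mem_IA m ⁅of j, of k⁆) (of m)
  rw [h.cc1_gen, one_mul, inv_one, mul_one, cc_self, kil_cm hmj.symm hmk.symm, map_mul, map_mul,
    map_inv] at e
  have e2 : h.rho ⁅of j, of k⁆ * h.rho (of m) = h.rho (of m) * h.rho ⁅of j, of k⁆ := by
    conv_lhs => rw [e]
    group
  exact e2.symm

lemma rho_tw (θ : MulAut (FreeGroup ι)) (w : FreeGroup ι) : (h.tw θ).rho w = h.rho (θ w) := by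
  show π (θ * MulAut.conj w * θ⁻¹) = π (MulAut.conj (θ w))
  rw [aut_conj]

lemma D2 {m j k : ι} (hmj : m ≠ j) (hmk : m ≠ k) (a : ι) (ha : a ≠ m) :
    Commute (h.rho (of a)) (h.rho ⁅of j, of k⁆) := by
  have h1 := (h.tw (rr m (of a))).D1 hmj hmk
  rw [h.rho_tw, h.rho_tw, rr_self, kil_ne ha, map_commutatorElement, rr_ne hmj.symm,
    rr_ne hmk.symm, map_mul h.rho] at h1
  have h2 := h.D1 hmj hmk
  have e : h.rho (of a) = (h.rho (of m))⁻¹ * (h.rho (of m) * h.rho (of a)) := by group
  rw [e]
  exact h2.inv_left.mul_left h1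

lemma rho_c2 (h4 : 4 ≤ Fintype.card ι) : C2 (fun w => h.rho w) where
  mul a _ b _ := map_mul _ _ _
  one' := by
    have hgen : ∀ j k a : ι, Commute (h.rho (of a)) (h.rho ⁅of j, of k⁆) := by
      intro j k a
      obtain ⟨m, hmj, hmk, hma⟩ := exists_ne3 h4 j k a
      exact h.D2 hmj hmk a hma.symm
    let Z : Subgroup (FreeGroup ι) :=
      { carrier := {w | ∀ v, Commute (h.rho w) (h.rho v)}
        one_mem' := fun v => by rw [map_one]; exact Commute.one_left _
        mul_mem' := fun {a b} ha hb v => by rw [map_mul]; exact (ha v).mul_left (hb v)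
        inv_mem' := fun {a} ha v => by rw [map_inv]; exact (ha v).inv_left }
    have hZn : Z.Normal := by
      refine ⟨fun w hw g v => ?_⟩
      have : h.rho (g * w * g⁻¹) = h.rho w := by
        rw [map_mul, map_mul, map_inv, ← (hw g).eq, mul_inv_cancel_right]
      rw [this]
      exact hw v
    have hle : commutator (FreeGroup ι) ≤ Z := by
      rw [commutator_def, Subgroup.commutator_le]
      intro u _ v _
      refine comm_mem_of Z (fun j k v => ?_) u v
      induction v using FreeGroup.induction_on with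
      | C1 => rw [map_one]; exact Commute.one_right _
      | of a => exact (hgen j k a).symm
      | inv_of a ih => rw [map_inv]; exact ih.inv_right
      | mul a b ha hb => rw [map_mul]; exact ha.mul_right hb
    intro a ha v
    show h.rho ⁅a, v⁆ = 1
    rw [map_commutatorElement, commutatorElement_eq_one_iff_commute]
    exact hle ha v

lemma rho_central (h4 : 4 ≤ Fintype.card ι) {s : MulAut (FreeGroup ι)}
    (hs : s ∈ IA (FreeGroup ι)) {w : FreeGroup ι} (hw : w ∈ commutator (FreeGroup ι)) :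
    Commute (π s) (h.rho w) := by
  have e := h.rho_conj hs w
  have e2 : h.rho (s w) = h.rho w := (h.rho_c2 h4).ia hs hw
  rw [e2, mul_inv_eq_iff_eq_mul] at e
  exact e

lemma prod_one (g : FreeGroup ι) (hg : g ∈ commutator (FreeGroup ι)) (l : List ι) :
    (l.map (fun m => cc m g)).prod ∈ IA (FreeGroup ι) ∧
      π (l.map (fun m => cc m g)).prod = 1 := by
  induction l with
  | nil => exact ⟨by simp [one_mem], by simpa using h.p1⟩
  | cons m l ih =>
    rw [List.map_cons, List.prod_cons]
    exact ⟨mul_mem (cc_mem_IA _ _) ih.1, by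
      rw [h.pm _ (cc_mem_IA _ _) _ ih.1, h.cc1 m hg, ih.2, mul_one]⟩

lemma idB' {i j : ι} (hij : i ≠ j) :
    ∃ g ∈ commutator (FreeGroup ι), π (cc i (of j)) * π (cc j (of i)) =
      h.rho g * (π (cc j (of i)) * π (cc i (of j))) := by
  have hg : (of j)⁻¹ * (of i)⁻¹ * of j * of i ∈ commutator (FreeGroup ι) := by
    have e : (of j)⁻¹ * (of i)⁻¹ * of j * of i = ⁅(of j : FreeGroup ι)⁻¹, (of i)⁻¹⁆ := by
      rw [commutatorElement_def]; group
    rw [e]
    exact cmem _ _
  refine ⟨_, hg, ?_⟩
  have e := congrArg π (idB hij (Finset.univ.filter (fun m => m ≠ i ∧ m ≠ j)).toList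
    (Finset.nodup_toList _) (by intro m; simp) _ rfl)
  obtain ⟨h1, h2⟩ := h.prod_one _ hg (Finset.univ.filter (fun m => m ≠ i ∧ m ≠ j)).toList
  rw [h.pm _ (cc_mem_IA _ _) _ (cc_mem_IA _ _),
    h.pm _ (mul_mem (conj_mem_IA _) h1) _ (mul_mem (cc_mem_IA _ _) (cc_mem_IA _ _)),
    h.pm _ (conj_mem_IA _) _ h1, h2, mul_one, h.pm _ (cc_mem_IA _ _) _ (cc_mem_IA _ _)] at e
  exact e

end Hm

open Classical in
/-- Extension by `1`. -/
noncomputable def ext1 (f : IA (FreeGroup ι) →* E) :
    MulAut (FreeGroup ι) → E := fun a => if h : a ∈ IA (FreeGroup ι) then f ⟨a, h⟩ else 1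

lemma ext1_of (f : IA (FreeGroup ι) →* E) (a : IA (FreeGroup ι)) :
    ext1 f a = f a := by
  unfold ext1
  rw [dif_pos a.2]

lemma ext1_of' (f : IA (FreeGroup ι) →* E) {a : MulAut (FreeGroup ι)}
    (h : a ∈ IA (FreeGroup ι)) : ext1 f a = f ⟨a, h⟩ := ext1_of f ⟨a, h⟩

/-- The group theoretic theorem, surjective case. -/
theorem abelian_surj (h4 : 4 ≤ Fintype.card ι) (π : MulAut (FreeGroup ι) → E) (h : Hm π)
    (hs : ∀ x : E, ∃ a ∈ IA (FreeGroup ι), π a = x) : ∀ x y : E, Commute x y := by
  let D : Subgroup E := (commutator (FreeGroup ι)).map h.rho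
  have hD : D ≤ Subgroup.center E := by
    rintro _ ⟨w, hw, rfl⟩
    rw [Subgroup.mem_center_iff]
    intro g
    obtain ⟨a, ha, rfl⟩ := hs g
    exact (h.rho_central h4 ha hw).eq
  have hDn : D.Normal := by
    refine ⟨fun x hx g => ?_⟩
    rw [Subgroup.mem_center_iff.1 (hD hx) g, mul_inv_cancel_right]
    exact hx
  let q : E →* E ⧸ D := QuotientGroup.mk' D
  have h1 : Hm (fun a => q (π a)) :=
    { pm := fun a ha b hb => by
        show q (π (a * b)) = q (π a) * q (π b)
        rw [h.pm a ha b hb, map_mul]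
      K := fun θ i j k hij hik => by
        show q (π _) = 1
        rw [h.K θ i j k hij hik, map_one] }
  have h2 : Full (fun a => q (π a)) :=
    { toHm := h1
      I3 := fun θ i p hip => by
        obtain ⟨g, hg, e⟩ := (h.tw θ).idB' hip
        have hg' : q ((h.tw θ).rho g) = 1 := by
          refine (QuotientGroup.eq_one_iff _).2 ⟨θ g, aut_comm θ hg, ?_⟩
          exact (h.rho_tw θ g).symm
        have e2 := congrArg q e
        rw [map_mul, map_mul, map_mul, hg', one_mul] at e2
        exact e2 }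
  have hc : ∀ x y : E, ⁅x, y⁆ ∈ Subgroup.center E := by
    intro x y
    apply hD
    obtain ⟨a, ha, rfl⟩ := hs x
    obtain ⟨b, hb, rfl⟩ := hs y
    have := h2.abelian a ha b hb
    rw [← commutatorElement_eq_one_iff_commute, ← map_commutatorElement] at this
    exact (QuotientGroup.eq_one_iff _).1 this
  have h3 := h.full2 hc h4
  intro x y
  obtain ⟨a, ha, rfl⟩ := hs x
  obtain ⟨b, hb, rfl⟩ := hs y
  exact h3.abelian a ha b hb

/-- Homomorphisms from `IA_n` that kill partial conjugations by commutators have abelian image. -/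
theorem abelian_of_K (h4 : 4 ≤ Fintype.card ι) (f : IA (FreeGroup ι) →* E)
    (hK : ∀ (θ : MulAut (FreeGroup ι)) (i j k : ι), i ≠ j → i ≠ k →
      ∀ h, f ⟨θ * cc i ⁅of j, of k⁆ * θ⁻¹, h⟩ = 1) (a b : IA (FreeGroup ι)) :
    Commute (f a) (f b) := by
  have hm : Hm (ext1 f.rangeRestrict) :=
    { pm := fun a ha b hb => by
        rw [ext1_of' _ ha, ext1_of' _ hb, ext1_of' _ (mul_mem ha hb), ← map_mul]; rfl
      K := fun θ i j k hij hik => by
        have hx : θ * cc i ⁅of j, of k⁆ * θ⁻¹ ∈ IA (FreeGroup ι) :=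
          (IA_normal _).conj_mem _ (cc_mem_IA _ _) _
        rw [ext1_of' _ hx]
        apply Subtype.ext
        exact hK θ i j k hij hik hx }
  have h := abelian_surj h4 _ hm (by
    rintro ⟨_, a, rfl⟩
    exact ⟨a, a.2, ext1_of _ a⟩)
  have h2 := h (f.rangeRestrict a) (f.rangeRestrict b)
  exact congrArg Subtype.val h2

end Pool.Agent.H12.LIN
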