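import Pool.Agent.H12.LIN.N4

set_option autoImplicit false
set_option linter.unusedSectionVars false
set_option linter.unusedSimpArgs false
set_option linter.unusedVariables false

/-!
Triangular families.
-/

namespace Pool.Agent.H12.LIN

open Pool.Agent.Helper460_OutF Pool.Agent.Helper460_CSP Pool.Agent.H12.SOL
open FreeGroup (of)
open scoped commutatorElement

/-- The group has no triangular family of length `m`: if `g i` commutes with `h j` for all
`i < j`, then `g i` commutes with `h i` for some `i`. -/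
def NoTriang (m : ℕ) (H : Type*) [Group H] : Prop :=
  ∀ g h : Fin m → H, (∀ i j, i < j → g i * h j = h j * g i) → ∃ i, g i * h i = h i * g i

lemma NoTriang.fam {m : ℕ} {H : Type*} [Group H] (hm : NoTriang m H) {J : Type*} [Finite J]
    (hJ : m ≤ Nat.card J) (rk : J → ℕ) (g h : J → H)
    (hc : ∀ i j, i ≠ j → rk i ≤ rk j → g i * h j = h j * g i) : ∃ i, g i * h i = h i * g i := by
  let e0 : Fin (Nat.card J) ≃ J := (Finite.equivFin J).symm
  let σ : Equiv.Perm (Fin (Nat.card J)) := Tuple.sort (rk ∘ e0)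
  have hσ : Monotone ((rk ∘ e0) ∘ σ) := Tuple.monotone_sort (rk ∘ e0)
  let e : Fin m → J := fun t => e0 (σ (Fin.castLE hJ t))
  obtain ⟨i, hi⟩ := hm (fun t => g (e t)) (fun t => h (e t)) (by
    intro a b hab
    apply hc
    · intro he
      have h1 := σ.injective (e0.injective he)
      have h2 : a = b := Fin.castLE_injective hJ h1
      exact hab.ne h2
    · exact hσ (show Fin.castLE hJ a ≤ Fin.castLE hJ b from hab.le))
  exact ⟨e i, hi⟩

variable {ι : Type} [DecidableEq ι] [Fintype ι] {E : Type*} [Group E]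

/-- Multiplicativity on `IA_n`. -/
def Mu (π : MulAut (FreeGroup ι) → E) : Prop :=
  ∀ a ∈ IA (FreeGroup ι), ∀ b ∈ IA (FreeGroup ι), π (a * b) = π a * π b

lemma Mu.comm {π : MulAut (FreeGroup ι) → E} (h : Mu π) {a b : MulAut (FreeGroup ι)}
    (ha : a ∈ IA (FreeGroup ι)) (hb : b ∈ IA (FreeGroup ι)) (hc : a * b = b * a) :
    π a * π b = π b * π a := by
  rw [← h a ha b hb, hc, h b hb a ha]

lemma Mu.tw {π : MulAut (FreeGroup ι) → E} (h : Mu π) (σ : MulAut (FreeGroup ι)) :
    Mu (SOL.tw σ π) := by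
  intro a ha b hb
  have e : σ * (a * b) * σ⁻¹ = (σ * a * σ⁻¹) * (σ * b * σ⁻¹) := by group
  show π _ = π _ * π _
  rw [e]
  exact h _ ((IA_normal _).conj_mem _ ha σ) _ ((IA_normal _).conj_mem _ hb σ)

/-- The key family. -/
theorem kill_of_noTriang {π : MulAut (FreeGroup ι) → E} (hπ : Mu π) {m : ℕ}
    (hm : NoTriang m E) (hcard : m + 4 ≤ 2 * Fintype.card ι) {i j k : ι} (hij : i ≠ j)
    (hik : i ≠ k) : π (cc i ⁅of j, of k⁆) = 1 := by
  have p1 : π 1 = 1 := by
    have := hπ 1 (one_mem _) 1 (one_mem _)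
    rw [mul_one] at this
    exact mul_eq_left.1 this.symm
  by_contra hne
  have hjk : j ≠ k := by
    rintro rfl
    apply hne
    rw [commutatorElement_self, map_one, p1]
  set u : FreeGroup ι := ⁅of j, of k⁆ with hu
  let C := {c : ι // c ≠ i ∧ c ≠ j ∧ c ≠ k}
  have hCcard : Fintype.card ι - 3 ≤ Nat.card C := card_ne3 i j k
  let J := (C ⊕ Bool) ⊕ C
  have hJ : m ≤ Nat.card J := by
    have h1 : Nat.card J = Nat.card C + 2 + Nat.card C := by
      simp only [J, Nat.card_sum]
      simp
    have h3 : 3 ≤ Fintype.card ι := by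
      have : ({i, j, k} : Finset ι).card ≤ Fintype.card ι := Finset.card_le_univ _
      rw [Finset.card_eq_three.2 ⟨i, j, k, hij, hik, hjk, rfl⟩] at this
      exact this
    omega
  have hki : kil i u = u := kil_cm hij.symm hik.symm
  have hkc : ∀ c : C, kil (c : ι) u = u := fun c => kil_cm c.2.2.1.symm c.2.2.2.symm
  have memU : ∀ c : ι, rr c u ∈ IA (FreeGroup ι) := fun c => rr_comm_mem_IA _ _ _
  have memV : ∀ w : FreeGroup ι, cc i w ∈ IA (FreeGroup ι) := fun c => cc_mem_IA _ _
  have presU : ∀ c : C, Pres i (rr (c : ι) u) := fun c => pres_rr c.2.1.symm hki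
  have UU : ∀ c d : C, π (rr (c : ι) u) * π (rr (d : ι) u) =
      π (rr (d : ι) u) * π (rr (c : ι) u) := by
    intro c d
    apply hπ.comm (memU _) (memU _)
    by_cases hcd : (c : ι) = d
    · rw [hcd]
    · have h1 : Pres (d : ι) (rr (c : ι) u) := pres_rr (fun h => hcd h.symm) (hkc d)
      have h2 := h1.rr u
      rw [rr_fix _ _ (hkc c), mul_inv_eq_iff_eq_mul] at h2
      exact h2
  have UV : ∀ (c : C) (w : FreeGroup ι), kil (c : ι) w = w → π (rr (c : ι) u) * π (cc i w) =
      π (cc i w) * π (rr (c : ι) u) := by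
    intro c w hw
    apply hπ.comm (memU _) (memV _)
    have h2 := (presU c).cc w
    rw [rr_fix _ _ hw, mul_inv_eq_iff_eq_mul] at h2
    exact h2
  have UVc : ∀ c : C, π (rr (c : ι) u) * π (cc i (of (c : ι))) ≠
      π (cc i (of (c : ι))) * π (rr (c : ι) u) := by
    intro c hcom
    have h2 := (presU c).cc (of (c : ι))
    rw [rr_self, hkc c, mul_inv_eq_iff_eq_mul, map_mul] at h2
    have h3 := congrArg π h2
    rw [hπ _ (memU _) _ (memV _), hπ _ (mul_mem (memV _) (memV _)) _ (memU _),
      hπ _ (memV _) _ (memV _), hcom] at h3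
    have h4 := mul_right_cancel h3
    exact hne (left_eq_mul.1 h4)
  have ab : π (cc i (of j)) * π (cc i (of k)) ≠ π (cc i (of k)) * π (cc i (of j)) := by
    intro hcom
    apply hne
    have h1 : cc i u * (cc i (of k) * cc i (of j)) = cc i (of j) * cc i (of k) := by
      rw [hu, ← map_mul, ← map_mul, ← map_mul, commutatorElement_def]
      congr 1
      group
    have h2 := congrArg π h1
    rw [hπ _ (memV _) _ (mul_mem (memV _) (memV _)), hπ _ (memV _) _ (memV _),
      hπ _ (memV _) _ (memV _), hcom] at h2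
    exact mul_eq_right.1 h2
  let rk : J → ℕ := fun x => match x with
    | Sum.inl (Sum.inl _) => 0
    | Sum.inl (Sum.inr false) => 1
    | Sum.inl (Sum.inr true) => 2
    | Sum.inr _ => 3
  let g : J → E := fun x => match x with
    | Sum.inl (Sum.inl c) => π (rr (c : ι) u)
    | Sum.inl (Sum.inr false) => π (cc i (of j))
    | Sum.inl (Sum.inr true) => π (cc i (of k))
    | Sum.inr c => π (cc i (of (c : ι)))
  let h : J → E := fun x => match x with
    | Sum.inl (Sum.inl c) => π (cc i (of (c : ι)))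
    | Sum.inl (Sum.inr false) => π (cc i (of k))
    | Sum.inl (Sum.inr true) => π (cc i (of j))
    | Sum.inr c => π (rr (c : ι) u)
  obtain ⟨x, hx⟩ := hm.fam hJ rk g h (by
    intro a b hab hrk
    match a, b with
    | Sum.inl (Sum.inl c), Sum.inl (Sum.inl d) =>
      refine UV c _ (kil_ne ?_)
      intro he
      exact hab (by rw [Subtype.ext he])
    | Sum.inl (Sum.inl c), Sum.inl (Sum.inr false) => exact UV c _ (kil_ne c.2.2.2.symm)
    | Sum.inl (Sum.inl c), Sum.inl (Sum.inr true) => exact UV c _ (kil_ne c.2.2.1.symm)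
    | Sum.inl (Sum.inl c), Sum.inr d => exact UU c d
    | Sum.inl (Sum.inr false), Sum.inl (Sum.inl d) => exact absurd hrk (by show ¬ (1 ≤ 0); omega)
    | Sum.inl (Sum.inr true), Sum.inl (Sum.inl d) => exact absurd hrk (by show ¬ (2 ≤ 0); omega)
    | Sum.inl (Sum.inr false), Sum.inl (Sum.inr false) => exact absurd rfl hab
    | Sum.inl (Sum.inr false), Sum.inl (Sum.inr true) => rfl
    | Sum.inl (Sum.inr true), Sum.inl (Sum.inr false) => exact absurd hrk (by show ¬ (2 ≤ 1); omega)
    | Sum.inl (Sum.inr true), Sum.inl (Sum.inr true) => exact absurd rfl hab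
    | Sum.inl (Sum.inr false), Sum.inr d => exact (UV d _ (kil_ne d.2.2.1.symm)).symm
    | Sum.inl (Sum.inr true), Sum.inr d => exact (UV d _ (kil_ne d.2.2.2.symm)).symm
    | Sum.inr c, Sum.inl (Sum.inl d) => exact absurd hrk (by show ¬ (3 ≤ 0); omega)
    | Sum.inr c, Sum.inl (Sum.inr false) => exact absurd hrk (by show ¬ (3 ≤ 1); omega)
    | Sum.inr c, Sum.inl (Sum.inr true) => exact absurd hrk (by show ¬ (3 ≤ 2); omega)
    | Sum.inr c, Sum.inr d =>
      refine (UV d _ (kil_ne ?_)).symm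
      intro he
      exact hab (by rw [Subtype.ext he]))
  match x with
  | Sum.inl (Sum.inl c) => exact UVc c hx
  | Sum.inl (Sum.inr false) => exact ab hx
  | Sum.inl (Sum.inr true) => exact ab hx.symm
  | Sum.inr c => exact UVc c hx.symm

/-- **Main theorem.** -/
theorem main (h4 : 4 ≤ Fintype.card ι) {m : ℕ} (hcard : m + 4 ≤ 2 * Fintype.card ι)
    (hm : NoTriang m E) (f : IA (FreeGroup ι) →* E) (a b : IA (FreeGroup ι)) :
    Commute (f a) (f b) := by
  have hMu : Mu (ext1 f) := by
    intro a ha b hb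
    rw [ext1_of' _ ha, ext1_of' _ hb, ext1_of' _ (mul_mem ha hb), ← map_mul]; rfl
  refine abelian_of_K h4 f (fun θ i j k hij hik hx => ?_) a b
  have := kill_of_noTriang (hMu.tw θ) hm hcard hij hik
  unfold SOL.tw at this
  rw [ext1_of' _ hx] at this
  exact this

end Pool.Agent.H12.LIN
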