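import Pool.Agent.H12.LIN.N5
import Pool.Agent.H12.CSP.A.Helper460_CSP.Cong

set_option autoImplicit false
set_option linter.unusedSectionVars false
set_option linter.unusedSimpArgs false
set_option linter.unusedVariables false

/-!
Linear groups over domains, and congruence subgroups.
-/

namespace Pool.Agent.H12.LIN

open Pool.Agent.Helper460_OutF Pool.Agent.Helper460_CSP Pool.Agent.H12.SOL
open FreeGroup (of)
open scoped commutatorElement

/-- Linear groups over domains have no long triangular families. -/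
theorem noTriang_GL (R : Type*) [CommRing R] [IsDomain R] (d m : ℕ) (hd : 2 * (d - 1) < m) :
    NoTriang m (Matrix.GeneralLinearGroup (Fin d) R) := by
  classical
  intro g h hc
  by_contra hne
  push Not at hne
  let K := FractionRing R
  let L := AlgebraicClosure K
  let i : R →+* L := (algebraMap K L).comp (algebraMap R K)
  have hi : Function.Injective i :=
    (algebraMap K L).injective.comp (IsFractionRing.injective R K)
  let φ : Matrix (Fin d) (Fin d) R →+* Matrix (Fin d) (Fin d) L := i.mapMatrix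
  have hφ : Function.Injective φ := by
    intro A B hAB
    ext a b
    have := congrFun (congrFun hAB a) b
    exact hi this
  have : Infinite L := IsAlgClosed.instInfinite
  have := matrix_tri (K := L) (fun j : Fin m => (j : ℕ))
    (fun j => φ (g j : Matrix (Fin d) (Fin d) R))
    (fun j => φ (h j : Matrix (Fin d) (Fin d) R)) (by
      intro i j hij hrk
      rw [← map_mul, ← map_mul]
      congr 1
      have hlt : i < j := lt_of_le_of_ne hrk hij
      have := congrArg (fun u : Matrix.GeneralLinearGroup (Fin d) R =>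
        (u : Matrix (Fin d) (Fin d) R)) (hc i j hlt)
      simpa using this) (by
      intro i h'
      rw [← map_mul, ← map_mul] at h'
      apply hne i
      ext1
      simpa using hφ h')
  rw [Fintype.card_fin, Fintype.card_fin] at this
  omega

/-- Congruence subgroups. -/
theorem csp_of_kill {n : ℕ} (hn : 3 ≤ n) (Γ : Subgroup (MulAut (FreeGroup (Fin n))))
    (hfi : Γ.FiniteIndex) (hinn : ∀ g, MulAut.conj g ∈ Γ)
    (h : ∀ (b : MulAut (FreeGroup (Fin n))) (i j k : Fin n), i ≠ j → i ≠ k →
      b * cc i ⁅of j, of k⁆ * b⁻¹ ∈ Γ) :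
    ∃ K : Subgroup (FreeGroup (Fin n)), K.Characteristic ∧ K.FiniteIndex ∧
      (∀ x y z : FreeGroup (Fin n), ⁅⁅x, y⁆, z⁆ ∈ K) ∧
      ∀ ψ : MulAut (FreeGroup (Fin n)),
        (∃ g : FreeGroup (Fin n), ∀ x : FreeGroup (Fin n), ψ x * (g * x * g⁻¹)⁻¹ ∈ K) → ψ ∈ Γ := by
  obtain ⟨k, rfl⟩ : ∃ k, n = k + 3 := ⟨n - 3, by omega⟩
  have hcore : (Γ.normalCore).FiniteIndex := inferInstance
  obtain ⟨M, hM, hle⟩ : ∃ M, 0 < M ∧ N1 (Fin (k + 3)) M ≤ Γ := by
    refine ⟨(Γ.normalCore).index, Nat.pos_of_ne_zero hcore.index_ne_zero, ?_⟩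
    refine le_trans ?_ (Subgroup.normalCore_le Γ)
    apply N1_le
    refine ⟨Nat.pos_of_ne_zero hcore.index_ne_zero, ?_, ?_, ?_⟩
    · intro g b
      rw [aut_conj]
      exact hinn _
    · intro i j k hij hik b
      exact h b i j k hij hik
    · intro i j hij
      exact Subgroup.pow_index_mem _ _
  have : NeZero M := ⟨hM.ne'⟩
  have : NeZero (4 * M) := ⟨by omega⟩
  refine ⟨VK (Fin (k + 3)) (HM M), inferInstance, VK_finite, VK_class2, ?_⟩
  intro ψ hψ
  exact hle (cong_N1 hM hψ)

end Pool.Agent.H12.LIN
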