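import Pool.Agent.H12.LIN.N6
import Pool.Agent.H12.CSP.A.Helper460_CSP.SmallIdx

set_option autoImplicit false
set_option linter.unusedSectionVars false
set_option linter.unusedSimpArgs false
set_option linter.unusedVariables false

/-!
Complex representations with finite image, subgroups of small index, and congruence subgroups.
-/

namespace Pool.Agent.H12.LIN

open Pool.Agent.Helper460_OutF Pool.Agent.Helper460_CSP Pool.Agent.H12.SOL
open FreeGroup (of)
open scoped commutatorElement

variable {ι : Type} [DecidableEq ι] [Fintype ι]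

theorem kill_of_noCube {H : Type} [Group H] (hC : NoCube (Fintype.card ι - 3) H)
    (f : IA (FreeGroup ι) →* H) (hfin : ∀ y, IsOfFinOrder (f y)) (θ : MulAut (FreeGroup ι))
    {i j k : ι} (hij : i ≠ j) (hik : i ≠ k)
    (h : θ * cc i ⁅of j, of k⁆ * θ⁻¹ ∈ IA (FreeGroup ι)) :
    f ⟨θ * cc i ⁅of j, of k⁆ * θ⁻¹, h⟩ = 1 := by
  have hIN : (IA (FreeGroup ι)).Normal := IA_normal _
  have h1 := cck_of_fin (Γ := IA (FreeGroup ι)) le_rfl (twist θ f) hC hij hik (by
      rw [← map_commutatorElement, RR_apply le_rfl _ i _ (cc_mem_IA _ _)]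
      exact hfin _)
  rw [← map_commutatorElement, RR_apply le_rfl _ i _ (cc_mem_IA _ _)] at h1
  exact h1

theorem abelian_of_noCube (h4 : 4 ≤ Fintype.card ι) {H : Type} [Group H]
    (hC : NoCube (Fintype.card ι - 3) H) (f : IA (FreeGroup ι) →* H)
    (hfin : ∀ y, IsOfFinOrder (f y)) (a b : IA (FreeGroup ι)) : Commute (f a) (f b) :=
  abelian_of_K h4 f (fun θ i j k hij hik h => kill_of_noCube hC f hfin θ hij hik h) a b

theorem noCube_complex' {n d : ℕ} (hn : 4 ≤ n) (hd : d < 2 ^ (n - 2)) :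
    NoCube (Fintype.card (Fin n) - 3) (Matrix.GeneralLinearGroup (Fin d) ℂ) := by
  rw [Fintype.card_fin]
  apply noCube_complex
  have : n - 3 + 1 = n - 2 := by omega
  rw [this]
  exact hd

theorem abelian_complex {n d : ℕ} (hn : 4 ≤ n) (hd : d < 2 ^ (n - 2))
    (f : IA (FreeGroup (Fin n)) →* Matrix.GeneralLinearGroup (Fin d) ℂ) (hf : Finite f.range)
    (a b : IA (FreeGroup (Fin n))) : Commute (f a) (f b) :=
  abelian_of_noCube (by rw [Fintype.card_fin]; exact hn) (noCube_complex' hn hd) f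
    (fin_order_of_range f hf) a b

theorem index_contains {n : ℕ} (hn : 4 ≤ n) (L : Subgroup (IA (FreeGroup (Fin n))))
    (h0 : L.index ≠ 0) (hL : L.index ≤ 2 ^ (n - 2)) (a b : IA (FreeGroup (Fin n))) :
    ⁅a, b⁆ ∈ L := by
  have hfi : L.FiniteIndex := ⟨h0⟩
  let X := IA (FreeGroup (Fin n)) ⧸ L
  have hX : Finite X := inferInstance
  let f : IA (FreeGroup (Fin n)) →* Equiv.Perm X := MulAction.toPermHom _ X
  have hC : NoCube (Fintype.card (Fin n) - 3) (Equiv.Perm X) := by
    apply noCube_perm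
    rw [Fintype.card_fin]
    have : n - 3 + 1 = n - 2 := by omega
    rw [this]
    exact hL
  have h1 := abelian_of_noCube (by rw [Fintype.card_fin]; exact hn) hC f
    (fun y => isOfFinOrder_of_finite _) a b
  have h2 : f ⁅a, b⁆ = 1 := by
    rw [map_commutatorElement]
    exact commutatorElement_eq_one_iff_mul_comm.2 h1
  have h3 := congrArg (fun σ : Equiv.Perm X => σ (QuotientGroup.mk 1)) h2
  have h4 : (QuotientGroup.mk (⁅a, b⁆ * 1) : X) = QuotientGroup.mk 1 := h3
  have h5 := QuotientGroup.eq.1 h4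
  rw [mul_one, mul_one] at h5
  exact inv_mem_iff.1 h5

end Pool.Agent.H12.LIN
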