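import Pool.Agent.H12.SOL.M2

set_option autoImplicit false
set_option linter.unusedSectionVars false
set_option linter.unusedSimpArgs false
set_option linter.unusedVariables false

/-!
A nonabelian representation of `IA_n` of degree `n - 1`.
-/

namespace Pool.Agent.H12.LIN.Prym

open Pool.Agent.Helper460_OutF Pool.Agent.Helper460_CSP Pool.Agent.H12.SOL
open FreeGroup (of)
open scoped commutatorElement

variable {k : ℕ}

/-- The sign of `x_0`. -/
def chi : FreeGroup (Fin (k + 1)) →* ℤˣ := FreeGroup.lift (fun j => if j = 0 then -1 else 1)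

lemma chi_zero : chi (of (0 : Fin (k + 1))) = -1 := by simp [chi]

lemma chi_ne {j : Fin (k + 1)} (h : j ≠ 0) : chi (of j) = 1 := by simp [chi, h]

/-- Affine maps. -/
def aff (ε : ℤˣ) (v : Fin (k + 1) → ℤ) : Equiv.Perm (Fin (k + 1) → ℤ) where
  toFun w := (ε : ℤ) • w + v
  invFun w := (ε : ℤ) • (w - v)
  left_inv w := by
    rcases Int.units_eq_one_or ε with rfl | rfl <;> simp
  right_inv w := by
    rcases Int.units_eq_one_or ε with rfl | rfl <;> simp

/-- The affine action. -/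
def Phi : FreeGroup (Fin (k + 1)) →* Equiv.Perm (Fin (k + 1) → ℤ) :=
  FreeGroup.lift (fun j => aff (chi (of j)) (Pi.single j 1))

/-- The universal derivation. -/
def D (w : FreeGroup (Fin (k + 1))) : Fin (k + 1) → ℤ := Phi w 0

lemma Phi_apply (w : FreeGroup (Fin (k + 1))) : ∀ v : Fin (k + 1) → ℤ,
    Phi w v = ((chi w : ℤˣ) : ℤ) • v + D w := by
  induction w using FreeGroup.induction_on with
  | C1 => intro v; simp [D]
  | of j =>
    intro v
    have h : ∀ v, Phi (of j) v = ((chi (of j) : ℤˣ) : ℤ) • v + Pi.single j 1 := by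
      intro v
      simp [Phi, aff]
    show Phi (of j) v = ((chi (of j) : ℤˣ) : ℤ) • v + Phi (of j) 0
    rw [h, h, smul_zero, zero_add]
  | inv_of j ih =>
    intro v
    have ih' : ∀ v : Fin (k + 1) → ℤ, Phi (of j) v = ((chi (of j) : ℤˣ) : ℤ) • v + D (of j) := ih
    have h1 : ∀ v, Phi (of j)⁻¹ v = ((chi (of j) : ℤˣ) : ℤ) • (v - D (of j)) := by
      intro v
      rw [map_inv, Equiv.Perm.inv_eq_iff_eq, ih', smul_smul]
      rcases Int.units_eq_one_or (chi (of j)) with h | h <;> rw [h] <;> simp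
    show Phi (of j)⁻¹ v = ((chi (of j)⁻¹ : ℤˣ) : ℤ) • v + Phi (of j)⁻¹ 0
    rw [h1, h1, map_inv]
    rcases Int.units_eq_one_or (chi (of j)) with h | h <;> rw [h] <;> simp <;> abel
  | mul a b ha hb =>
    intro v
    have h1 : ∀ v, Phi (a * b) v = ((chi (a * b) : ℤˣ) : ℤ) • v + (((chi a : ℤˣ) : ℤ) • D b + D a) := by
      intro v
      rw [map_mul, Equiv.Perm.mul_apply, hb, ha, map_mul, Units.val_mul, smul_add, smul_smul]
      abel
    show Phi (a * b) v = ((chi (a * b) : ℤˣ) : ℤ) • v + Phi (a * b) 0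
    rw [h1, h1, smul_zero, zero_add]

lemma D_mul (a b : FreeGroup (Fin (k + 1))) : D (a * b) = D a + ((chi a : ℤˣ) : ℤ) • D b := by
  show Phi (a * b) 0 = _
  rw [map_mul, Equiv.Perm.mul_apply, Phi_apply a]
  exact add_comm _ _

lemma D_one : D (1 : FreeGroup (Fin (k + 1))) = 0 := by
  show Phi 1 0 = 0
  rw [map_one]; rfl

lemma D_inv (a : FreeGroup (Fin (k + 1))) : D a⁻¹ = - (((chi a : ℤˣ) : ℤ) • D a) := by
  have h := D_mul a⁻¹ a
  rw [inv_mul_cancel, D_one, map_inv] at h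
  have h2 : D a⁻¹ = - ((((chi a)⁻¹ : ℤˣ) : ℤ) • D a) := eq_neg_of_add_eq_zero_left h.symm
  rw [h2]
  rcases Int.units_eq_one_or (chi a) with h | h <;> rw [h] <;> simp

lemma D_of (j : Fin (k + 1)) : D (of j) = Pi.single j 1 := by
  show Phi (of j) 0 = _
  simp [Phi, aff]

lemma two_D (w : FreeGroup (Fin (k + 1))) : 2 * D w 0 = 1 - ((chi w : ℤˣ) : ℤ) := by
  induction w using FreeGroup.induction_on with
  | C1 => rw [D_one, map_one]; simp
  | of j =>
    show 2 * D (of j) 0 = 1 - ((chi (of j) : ℤˣ) : ℤ)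
    rw [D_of]
    by_cases h : j = 0
    · subst h; rw [chi_zero]; simp
    · rw [chi_ne h]; simp [Pi.single_apply, Ne.symm h]
  | inv_of j ih =>
    have ih' : 2 * D (of j) 0 = 1 - ((chi (of j) : ℤˣ) : ℤ) := ih
    show 2 * D (of j)⁻¹ 0 = 1 - ((chi (of j)⁻¹ : ℤˣ) : ℤ)
    rw [D_inv, map_inv]
    rcases Int.units_eq_one_or (chi (of j)) with h | h <;> rw [h] at ih' ⊢ <;>
      simp at ih' ⊢ <;> omega
  | mul a b ha hb =>
    rw [D_mul, map_mul, Units.val_mul, Pi.add_apply, Pi.smul_apply, smul_eq_mul]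
    linear_combination ha + ((chi a : ℤˣ) : ℤ) * hb

lemma chi_ia {φ : MulAut (FreeGroup (Fin (k + 1)))} (h : φ ∈ IA (FreeGroup (Fin (k + 1))))
    (w : FreeGroup (Fin (k + 1))) : chi (φ w) = chi w := by
  rw [← Abelianization.lift_apply_of chi w, ← Abelianization.lift_apply_of chi (φ w), h w]

lemma chain {φ : MulAut (FreeGroup (Fin (k + 1)))} (h : φ ∈ IA (FreeGroup (Fin (k + 1))))
    (w : FreeGroup (Fin (k + 1))) (j : Fin (k + 1)) :
    D (φ w) j = ∑ l, D w l * D (φ (of l)) j := by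
  induction w using FreeGroup.induction_on with
  | C1 => rw [map_one, D_one]; simp
  | of i =>
    show D (φ (of i)) j = ∑ l, D (of i) l * D (φ (of l)) j
    rw [D_of, Finset.sum_eq_single i]
    · simp
    · intro b _ hb
      simp [Pi.single_apply, hb]
    · simp
  | inv_of i ih =>
    have ih' : D (φ (of i)) j = ∑ l, D (of i) l * D (φ (of l)) j := ih
    show D (φ (of i)⁻¹) j = ∑ l, D (of i)⁻¹ l * D (φ (of l)) j
    rw [map_inv, D_inv, D_inv, chi_ia h, Pi.neg_apply, Pi.smul_apply, ih', smul_eq_mul,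
      Finset.mul_sum, ← Finset.sum_neg_distrib]
    refine Finset.sum_congr rfl fun l _ => ?_
    simp only [Pi.neg_apply, Pi.smul_apply, smul_eq_mul]
    ring
  | mul a b ha hb =>
    rw [map_mul, D_mul, D_mul, chi_ia h, Pi.add_apply, Pi.smul_apply, ha, hb, smul_eq_mul,
      Finset.mul_sum, ← Finset.sum_add_distrib]
    refine Finset.sum_congr rfl fun l _ => ?_
    simp only [Pi.add_apply, Pi.smul_apply, smul_eq_mul]
    ring

/-- The matrix of an automorphism. -/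
def Mt (φ : MulAut (FreeGroup (Fin (k + 1)))) : Matrix (Fin k) (Fin k) ℤ :=
  fun a b => D (φ (of a.succ)) b.succ

lemma D_zero {φ : MulAut (FreeGroup (Fin (k + 1)))} (h : φ ∈ IA (FreeGroup (Fin (k + 1))))
    (a : Fin k) : D (φ (of a.succ)) 0 = 0 := by
  have h1 := two_D (φ (of a.succ))
  rw [chi_ia h, chi_ne (Fin.succ_ne_zero a)] at h1
  simp at h1
  exact h1

lemma Mt_mul {φ ψ : MulAut (FreeGroup (Fin (k + 1)))} (hφ : φ ∈ IA (FreeGroup (Fin (k + 1))))
    (hψ : ψ ∈ IA (FreeGroup (Fin (k + 1)))) : Mt (φ * ψ) = Mt ψ * Mt φ := by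
  ext a b
  rw [Matrix.mul_apply]
  show D ((φ * ψ) (of a.succ)) b.succ =
    ∑ l : Fin k, D (ψ (of a.succ)) l.succ * D (φ (of l.succ)) b.succ
  rw [MulAut.mul_apply, chain hφ, Fin.sum_univ_succ, D_zero hψ, zero_mul, zero_add]

lemma Mt_one : Mt (1 : MulAut (FreeGroup (Fin (k + 1)))) = 1 := by
  ext a b
  show D (of a.succ) b.succ = _
  rw [D_of, Matrix.one_apply, Pi.single_apply]
  by_cases h : a = b
  · subst h; simp
  · rw [if_neg h, if_neg]
    intro h2
    exact h (Fin.succ_injective _ h2).symm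

/-- The representation. -/
def rep : IA (FreeGroup (Fin (k + 1))) →* Matrix.GeneralLinearGroup (Fin k) ℤ where
  toFun φ := ⟨Mt (φ : MulAut (FreeGroup (Fin (k + 1))))⁻¹, Mt (φ : MulAut (FreeGroup (Fin (k + 1)))),
    by rw [← Mt_mul φ.2 (inv_mem φ.2), mul_inv_cancel, Mt_one],
    by rw [← Mt_mul (inv_mem φ.2) φ.2, inv_mul_cancel, Mt_one]⟩
  map_one' := by
    ext1
    show Mt (1 : MulAut (FreeGroup (Fin (k + 1))))⁻¹ = 1
    rw [inv_one, Mt_one]
  map_mul' φ ψ := by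
    ext1
    show Mt ((φ * ψ : IA (FreeGroup (Fin (k + 1)))) : MulAut (FreeGroup (Fin (k + 1))))⁻¹ =
      Mt (φ : MulAut (FreeGroup (Fin (k + 1))))⁻¹ * Mt (ψ : MulAut (FreeGroup (Fin (k + 1))))⁻¹
    rw [Subgroup.coe_mul, mul_inv_rev, Mt_mul (inv_mem ψ.2) (inv_mem φ.2)]

lemma calc_ne {a b : Fin (k + 1)} (ha : a ≠ 0) (hb : b ≠ 0) (hab : b ≠ a) :
    D ((rr a ⁅(of b : FreeGroup (Fin (k + 1))), of 0⁆ * cc a (of 0)) (of a)) b ≠
      D ((cc a (of 0) * rr a ⁅(of b : FreeGroup (Fin (k + 1))), of 0⁆) (of a)) b := by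
  have r0 : rr a ⁅(of b : FreeGroup (Fin (k + 1))), of 0⁆ (of 0) = of 0 := rr_ne ha.symm _
  have ra : rr a ⁅(of b : FreeGroup (Fin (k + 1))), of 0⁆ (of a) = of a * ⁅of b, of 0⁆ := by
    rw [rr_self, kil_comm_of hab ha.symm]
  have c0 : cc a (of (0 : Fin (k + 1))) (of 0) = of 0 := cc_ne ha.symm _
  have c2 : cc a (of (0 : Fin (k + 1))) (of b) = of b := cc_ne hab _
  have ca : cc a (of (0 : Fin (k + 1))) (of a) = (of 0)⁻¹ * of a * of 0 := by
    rw [cc_self, kil_ne ha.symm]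
  generalize rr a ⁅(of b : FreeGroup (Fin (k + 1))), of 0⁆ = R at r0 ra ⊢
  generalize cc a (of (0 : Fin (k + 1))) = C at c0 c2 ca ⊢
  intro h4
  rw [MulAut.mul_apply, MulAut.mul_apply, ra, ca] at h4
  simp only [map_mul, map_inv, map_commutatorElement, r0, ra, c0, c2, ca] at h4
  simp only [commutatorElement_def, D_mul, D_inv, D_of, map_mul, map_inv, chi_zero, chi_ne ha,
    chi_ne hb, Pi.add_apply, Pi.smul_apply, Pi.neg_apply, Pi.single_apply, hb, hab, hab.symm,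
    smul_eq_mul] at h4
  norm_num at h4

theorem nonabelian (hk : 2 ≤ k) : ∃ a b : IA (FreeGroup (Fin (k + 1))),
    rep a * rep b ≠ rep b * rep a := by
  let i0 : Fin k := ⟨0, by omega⟩
  let i1 : Fin k := ⟨1, by omega⟩
  have h01 : i1 ≠ i0 := by
    intro h; exact absurd (congrArg Fin.val h) (by simp [i0, i1])
  let A : IA (FreeGroup (Fin (k + 1))) := ⟨cc i0.succ (of 0), cc_mem_IA _ _⟩
  let B : IA (FreeGroup (Fin (k + 1))) := ⟨rr i0.succ ⁅of i1.succ, of 0⁆, rr_comm_mem_IA _ _ _⟩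
  refine ⟨A⁻¹, B⁻¹, ?_⟩
  intro h
  have h1 := congrArg (fun u : Matrix.GeneralLinearGroup (Fin k) ℤ =>
    (u : Matrix (Fin k) (Fin k) ℤ)) h
  have hA : ((rep A⁻¹ : Matrix.GeneralLinearGroup (Fin k) ℤ) :
      Matrix (Fin k) (Fin k) ℤ) = Mt (cc i0.succ (of 0)) := by
    show Mt ((A⁻¹ : IA (FreeGroup (Fin (k + 1)))) :
      MulAut (FreeGroup (Fin (k + 1))))⁻¹ = _
    rw [Subgroup.coe_inv, inv_inv]
  have hB : ((rep B⁻¹ : Matrix.GeneralLinearGroup (Fin k) ℤ) :
      Matrix (Fin k) (Fin k) ℤ) =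
      Mt (rr i0.succ ⁅(of i1.succ : FreeGroup (Fin (k + 1))), of 0⁆) := by
    show Mt ((B⁻¹ : IA (FreeGroup (Fin (k + 1)))) :
      MulAut (FreeGroup (Fin (k + 1))))⁻¹ = _
    rw [Subgroup.coe_inv, inv_inv]
  have h2 : Mt (cc i0.succ (of 0)) *
      Mt (rr i0.succ ⁅(of i1.succ : FreeGroup (Fin (k + 1))), of 0⁆) =
      Mt (rr i0.succ ⁅(of i1.succ : FreeGroup (Fin (k + 1))), of 0⁆) *
        Mt (cc i0.succ (of 0)) := by
    rw [← hA, ← hB]
    exact h1
  rw [← Mt_mul (rr_comm_mem_IA _ _ _) (cc_mem_IA _ _),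
    ← Mt_mul (cc_mem_IA _ _) (rr_comm_mem_IA _ _ _)] at h2
  exact calc_ne (Fin.succ_ne_zero i0) (Fin.succ_ne_zero i1)
    (fun h => h01 (Fin.succ_injective _ h)) (congrFun (congrFun h2 i0) i1)

end Pool.Agent.H12.LIN.Prym
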